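import Mathlib

set_option autoImplicit false

/-!
Right Folner sets in nilpotent groups.
-/

namespace Pool.Agent.TH714.PF

open scoped Pointwise
open Classical

/-- right Folner condition -/
def Fol (G : Type*) [Group G] : Prop :=
  ∀ (S : Finset G) (ε : ℝ), 0 < ε →
    ∃ Φ : Finset G, Φ.Nonempty ∧ ((Φ * S).card : ℝ) ≤ (1 + ε) * Φ.card

theorem Fol.ex {G : Type*} [Group G] [inst : DecidableEq G] (h : Fol G) (S : Finset G) (ε : ℝ)
    (hε : 0 < ε) : ∃ Φ : Finset G, Φ.Nonempty ∧ ((Φ * S).card : ℝ) ≤ (1 + ε) * Φ.card := by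
  obtain rfl : inst = (fun a b => Classical.propDecidable (a = b)) := Subsingleton.elim _ _
  exact h S ε hε

theorem card_pow_le {G : Type*} [CommGroup G] (S : Finset G) (m : ℕ) :
    (S ^ m).card ≤ (m + 1) ^ S.card := by
  have key : ∀ m : ℕ, ∀ x ∈ S ^ m, ∃ f : {s // s ∈ S} → ℕ, (∀ s, f s ≤ m) ∧
      ∏ s : {s // s ∈ S}, (s : G) ^ f s = x := by
    intro m
    induction m with
    | zero =>
      intro x hx
      rw [pow_zero, Finset.mem_one] at hx
      exact ⟨fun _ => 0, fun _ => le_rfl, by simp [hx]⟩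
    | succ m ih =>
      intro x hx
      rw [pow_succ, Finset.mem_mul] at hx
      obtain ⟨a, ha, b, hb, rfl⟩ := hx
      obtain ⟨f, hf, rfl⟩ := ih a ha
      refine ⟨fun s => f s + if s = ⟨b, hb⟩ then 1 else 0, fun s => ?_, ?_⟩
      · have := hf s
        dsimp only
        split_ifs <;> omega
      · simp only [pow_add, Finset.prod_mul_distrib]
        congr 1
        rw [Finset.prod_eq_single ⟨b, hb⟩]
        · simp
        · intro s _ hs
          rw [if_neg hs, pow_zero]
        · intro h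
          exact absurd (Finset.mem_univ _) h
  have h2 : S ^ m ⊆ (Finset.univ : Finset ({s // s ∈ S} → Fin (m + 1))).image
      (fun f => ∏ s : {s // s ∈ S}, (s : G) ^ (f s : ℕ)) := by
    intro x hx
    obtain ⟨f, hf, hx⟩ := key m x hx
    rw [Finset.mem_image]
    exact ⟨fun s => ⟨f s, Nat.lt_succ_of_le (hf s)⟩, Finset.mem_univ _, hx⟩
  calc (S ^ m).card ≤ _ := Finset.card_le_card h2
    _ ≤ (Finset.univ : Finset ({s // s ∈ S} → Fin (m + 1))).card := Finset.card_image_le
    _ = (m + 1) ^ S.card := by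
      rw [Finset.card_univ, Fintype.card_fun, Fintype.card_fin, Fintype.card_coe]

theorem fol_comm (G : Type*) [CommGroup G] : Fol G := by
  intro S ε hε
  set S' : Finset G := insert 1 S with hS'
  have hne : ∀ m : ℕ, (S' ^ m).Nonempty := fun m => (Finset.insert_nonempty 1 S).pow
  by_contra hcon
  push Not at hcon
  have h1 : ∀ m : ℕ, (1 + ε) ^ m ≤ ((S' ^ m).card : ℝ) := by
    intro m
    induction m with
    | zero => simp
    | succ m ih =>
      have h2 := hcon (S' ^ m) (hne m)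
      have h3 : ((S' ^ m * S).card : ℝ) ≤ ((S' ^ (m + 1)).card : ℝ) := by
        rw [pow_succ]
        exact_mod_cast Finset.card_le_card (Finset.mul_subset_mul_left (Finset.subset_insert 1 S))
      have h4 : (0 : ℝ) < 1 + ε := by linarith
      calc (1 + ε) ^ (m + 1) = (1 + ε) * (1 + ε) ^ m := by ring
        _ ≤ (1 + ε) * ((S' ^ m).card : ℝ) := by
          exact mul_le_mul_of_nonneg_left ih h4.le
        _ ≤ _ := by linarith
  have h5 : ∀ m : ℕ, (1 + ε) ^ m ≤ ((m : ℝ) + 1) ^ S'.card := by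
    intro m
    refine (h1 m).trans ?_
    exact_mod_cast card_pow_le S' m
  have h6 := tendsto_pow_const_div_const_pow_of_one_lt S'.card (show (1 : ℝ) < 1 + ε by linarith)
  have h7 : ∀ᶠ n : ℕ in Filter.atTop, (n : ℝ) ^ S'.card / (1 + ε) ^ n < 1 / (1 + ε) := by
    apply h6.eventually_lt_const
    positivity
  obtain ⟨N, hN⟩ := Filter.eventually_atTop.1 h7
  have h8 := hN (N + 1) (Nat.le_succ N)
  have h9 := h5 N
  have h10 : (0 : ℝ) < 1 + ε := by linarith
  rw [div_lt_div_iff₀ (by positivity) h10, pow_succ] at h8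
  push_cast at h8
  nlinarith

theorem fol_comm' (G : Type*) [Group G] (hc : ∀ a b : G, a * b = b * a) : Fol G := by
  let _ : CommGroup G := { (inferInstance : Group G) with mul_comm := hc }
  exact fol_comm G

theorem fol_step (G : Type*) [Group G] (h : Fol (G ⧸ Subgroup.center G)) : Fol G := by
  intro S ε hε
  -- choose `δ` with `(1 + δ)^2 ≤ 1 + ε`
  obtain ⟨δ, hδ, hδε⟩ : ∃ δ : ℝ, 0 < δ ∧ (1 + δ) * (1 + δ) ≤ 1 + ε := by
    refine ⟨min 1 (ε / 3), by positivity, ?_⟩
    have h1 : min 1 (ε / 3) ≤ 1 := min_le_left _ _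
    have h2 : min 1 (ε / 3) ≤ ε / 3 := min_le_right _ _
    have h3 : 0 < min 1 (ε / 3) := by positivity
    nlinarith
  let q : G → G ⧸ Subgroup.center G := QuotientGroup.mk
  obtain ⟨Φ', hΦ'ne, hΦ'⟩ := h.ex (S.image q) δ hδ
  -- lifts
  let σ : G ⧸ Subgroup.center G → G := Quotient.out
  have hσ : ∀ x, q (σ x) = x := fun x => Quotient.out_eq' x
  have hσinj : Function.Injective σ := fun x y hxy => by rw [← hσ x, hxy, hσ y]
  set Φ₁ : Finset G := Φ'.image σ with hΦ₁
  set T : Finset G := (Φ' * S.image q).image σ with hT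
  -- the central parts
  have hz : ∀ φ ∈ Φ₁, ∀ s ∈ S, (σ (q (φ * s)))⁻¹ * (φ * s) ∈ Subgroup.center G := by
    intro φ _ s _
    have : q (σ (q (φ * s))) = q (φ * s) := hσ _
    exact QuotientGroup.eq.1 this
  set Z₀ : Finset (Subgroup.center G) := ((Φ₁ ×ˢ S).attach).image
    (fun p => ⟨(σ (q (p.1.1 * p.1.2)))⁻¹ * (p.1.1 * p.1.2), hz p.1.1
      (Finset.mem_product.1 p.2).1 p.1.2 (Finset.mem_product.1 p.2).2⟩) with hZ₀
  obtain ⟨Φ₂, hΦ₂ne, hΦ₂⟩ := (fol_comm' (Subgroup.center G)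
    (fun a b => Subtype.ext (Subgroup.mem_center_iff.1 b.2 a))).ex Z₀ δ hδ
  set Φ₂' : Finset G := Φ₂.image Subtype.val with hΦ₂'
  set W : Finset G := (Φ₂ * Z₀).image Subtype.val with hW
  have hcomm : ∀ z : Subgroup.center G, ∀ g : G, g * z = z * g := fun z g =>
    (Subgroup.mem_center_iff.1 z.2 g)
  refine ⟨Φ₁ * Φ₂', ?_, ?_⟩
  · exact (hΦ'ne.image _).mul (hΦ₂ne.image _)
  · have hsub : Φ₁ * Φ₂' * S ⊆ T * W := by
      intro x hx
      rw [Finset.mem_mul] at hx
      obtain ⟨y, hy, s, hs, rfl⟩ := hx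
      rw [Finset.mem_mul] at hy
      obtain ⟨φ, hφ, z', hz', rfl⟩ := hy
      rw [hΦ₂', Finset.mem_image] at hz'
      obtain ⟨z, hzm, rfl⟩ := hz'
      rw [Finset.mem_mul]
      have hφ' := hφ
      rw [hΦ₁, Finset.mem_image] at hφ'
      obtain ⟨φ', hφ'm, hφ'e⟩ := hφ'
      refine ⟨σ (q (φ * s)), ?_, (z : G) * ((σ (q (φ * s)))⁻¹ * (φ * s)), ?_, ?_⟩
      · rw [hT, Finset.mem_image]
        refine ⟨q (φ * s), ?_, rfl⟩
        rw [Finset.mem_mul]
        refine ⟨φ', hφ'm, q s, Finset.mem_image_of_mem _ hs, ?_⟩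
        rw [← hφ'e]
        have : q (σ φ' * s) = q (σ φ') * q s := rfl
        rw [this, hσ]
      · rw [hW, Finset.mem_image]
        refine ⟨z * ⟨(σ (q (φ * s)))⁻¹ * (φ * s), hz φ hφ s hs⟩, ?_, rfl⟩
        rw [Finset.mem_mul]
        refine ⟨z, hzm, _, ?_, rfl⟩
        rw [hZ₀, Finset.mem_image]
        exact ⟨⟨(φ, s), Finset.mem_product.2 ⟨hφ, hs⟩⟩, Finset.mem_attach _ _, rfl⟩
      · have h1 := hcomm z (σ (q (φ * s)))
        have h2 := hcomm z φ
        calc σ (q (φ * s)) * ((z : G) * ((σ (q (φ * s)))⁻¹ * (φ * s)))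
            = (σ (q (φ * s)) * z) * ((σ (q (φ * s)))⁻¹ * (φ * s)) := by group
          _ = (z * σ (q (φ * s))) * ((σ (q (φ * s)))⁻¹ * (φ * s)) := by rw [h1]
          _ = z * φ * s := by group
          _ = φ * z * s := by rw [h2]
    have hcard : (Φ₁ * Φ₂').card = Φ'.card * Φ₂.card := by
      rw [Finset.card_mul_iff.2, Finset.card_image_of_injective _ hσinj,
        Finset.card_image_of_injective _ Subtype.val_injective]
      intro p hp p' hp' he
      rw [Set.mem_prod] at hp hp'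
      obtain ⟨a, b⟩ := p
      obtain ⟨a', b'⟩ := p'
      simp only at hp hp' he ⊢
      have ha := hp.1
      have ha' := hp'.1
      have hb := hp.2
      have hb' := hp'.2
      rw [Finset.mem_coe, hΦ₁, Finset.mem_image] at ha ha'
      rw [Finset.mem_coe, hΦ₂', Finset.mem_image] at hb hb'
      obtain ⟨u, _, rfl⟩ := ha
      obtain ⟨u', _, rfl⟩ := ha'
      obtain ⟨v, _, rfl⟩ := hb
      obtain ⟨v', _, rfl⟩ := hb'
      have h1 : q (σ u * v) = q (σ u' * v') := by rw [he]
      have h2 : ∀ (w : G) (v : Subgroup.center G), q (w * v) = q w := fun w v =>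
        (QuotientGroup.eq.2 (by rw [inv_mul_cancel_left]; exact v.2)).symm
      rw [h2, h2, hσ, hσ] at h1
      subst h1
      rw [mul_right_inj] at he
      rw [he]
    have h1 : ((T * W).card : ℝ) ≤ (T.card : ℝ) * W.card := by
      exact_mod_cast Finset.card_mul_le
    have h2 : (T.card : ℝ) ≤ (1 + δ) * Φ'.card := by
      have h0 : T.card ≤ (Φ' * S.image q).card := by rw [hT]; exact Finset.card_image_le
      refine le_trans ?_ hΦ'
      rw [Nat.cast_le]
      exact h0
    have h3 : (W.card : ℝ) ≤ (1 + δ) * Φ₂.card := by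
      have h0 : W.card ≤ (Φ₂ * Z₀).card := by rw [hW]; exact Finset.card_image_le
      refine le_trans ?_ hΦ₂
      rw [Nat.cast_le]
      exact h0
    have h4 : ((Φ₁ * Φ₂' * S).card : ℝ) ≤ (T * W).card := by
      exact_mod_cast Finset.card_le_card hsub
    have h5 : (T.card : ℝ) * W.card ≤ ((1 + δ) * Φ'.card) * ((1 + δ) * Φ₂.card) :=
      mul_le_mul h2 h3 (by positivity) (by positivity)
    rw [hcard]
    push_cast
    have h6 : (0 : ℝ) ≤ (Φ'.card : ℝ) * Φ₂.card := by positivity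
    nlinarith

theorem fol_nilpotent (G : Type*) [Group G] [Group.IsNilpotent G] : Fol G := by
  refine Group.nilpotent_center_quotient_ind (P := fun G _ _ => Fol G) G ?_ ?_
  · intro G _ _ S ε hε
    refine ⟨{1}, Finset.singleton_nonempty 1, ?_⟩
    have h1 : ({1} * S : Finset G).card ≤ 1 := Finset.card_le_one.2 fun a _ b _ =>
      Subsingleton.elim a b
    have h2 : (({1} * S : Finset G).card : ℝ) ≤ 1 := by exact_mod_cast h1
    rw [Finset.card_singleton]
    push_cast
    linarith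
  · intro G _ _ h
    exact fol_step G h

end Pool.Agent.TH714.PF
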